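import Mathlib

/-!
# Gorenstein sets of points without the weak Lefschetz property: definitions and task statements

MP_704975_ag (S00248) and MP_845d9e_ag (S00286).
-/

set_option autoImplicit false

open MvPolynomial

namespace Pool.Agent.W464.WLP

/-- evaluation of polynomials at a family of points -/
noncomputable def ev {K ι Z : Type*} [Field K] (P : Z → ι → K) :
    MvPolynomial ι K →ₗ[K] (Z → K) :=
  LinearMap.pi fun z => (MvPolynomial.aeval (P z)).toLinearMap

/-- the functions on `Z` given by forms of degree `d` -/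
noncomputable def S {K ι Z : Type*} [Field K] (P : Z → ι → K) (d : ℕ) : Submodule K (Z → K) :=
  (homogeneousSubmodule ι K d).map (ev P)

/-- Gorenstein duality: for the pairing `∑ c φ ψ` on functions, `S d` is the orthogonal complement
of `S (t - d)`. -/
structure Dual {K ι Z : Type*} [Field K] [Fintype Z] (P : Z → ι → K) (c : Z → K) (t : ℕ) :
    Prop where
  cne : ∀ z, c z ≠ 0
  orth : ∀ φ ∈ S P t, ∑ z, c z * φ z = 0
  perp : ∀ d ≤ t, ∀ φ : Z → K, (∀ ψ ∈ S P (t - d), ∑ z, c z * (φ z * ψ z) = 0) → φ ∈ S P d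
  top : ∀ d, t < d → S P d = ⊤

/-- `k + 1` nodes with weights picking the coefficient of `τ` -/
structure Nodes (K : Type*) [Field K] (k : ℕ) where
  τ : Fin (k + 1) → K
  γ : Fin (k + 1) → K
  inj : Function.Injective τ
  γne : ∀ r, γ r ≠ 0
  sum : ∀ j ≤ k + 1, ∑ r, γ r * τ r ^ j = if j = 1 then 1 else 0
  last : ∑ r, γ r * τ r ^ (k + 2) ≠ 0

/-- two families of points of the space `K^v` (indexed by `I`), each unisolvent for forms of
degree `k`, with the dual bases `f`, `f'`, in general position -/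
structure Conf (K : Type*) [Field K] (v k : ℕ) (I : Type*) [DecidableEq I] where
  w : Bool → I → Fin v → K
  f : Bool → I → MvPolynomial (Fin v) K
  hom : ∀ b j, (f b j).IsHomogeneous k
  dual : ∀ b i j, eval (w b i) (f b j) = if i = j then 1 else 0
  uni : ∀ b (p : MvPolynomial (Fin v) K), p.IsHomogeneous k → (∀ i, eval (w b i) p = 0) → p = 0
  big : ∀ p : MvPolynomial (Fin v) K, p.IsHomogeneous (k + 1) → (∀ b i, eval (w b i) p = 0) → p = 0
  sq : ∀ α β : I → K,
    (∀ i j, α j * eval (w true i) (f false j) = β i * eval (w false j) (f true i)) →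
    (∀ j, α j = 0) ∧ ∀ i, β i = 0

section Points

variable {K : Type*} [Field K] {v k : ℕ} {I : Type*} [DecidableEq I]

/-- the second half of the coordinates: the form `f b i` in the coordinates `values at w false j` -/
noncomputable def Conf.e (C : Conf K v k I) (b : Bool) (i j : I) : K := eval (C.w false j) (C.f b i)

/-- the points: `k + 1` points on the line through `w b i` and `f b i` -/
noncomputable def Conf.pts (C : Conf K v k I) (nd : Nodes K k) (z : Bool × I × Fin (k + 1)) :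
    Fin v ⊕ I → K :=
  Sum.elim (C.w z.1 z.2.1) (fun j => nd.τ z.2.2 * C.e z.1 z.2.1 j)

/-- the weights -/
noncomputable def Conf.wt (nd : Nodes K k) (z : Bool × I × Fin (k + 1)) : K :=
  (if z.1 then -1 else 1) * nd.γ z.2.2

end Points

/-- the lattice points of the simplex -/
abbrev Lat (m k : ℕ) : Type := {a : Fin m → Fin (k + 1) // ∑ i, (a i : ℕ) ≤ k}

/-- the body of the frozen statement S00248 -/
def Stmt248 : Prop :=
    ∀ (K : Type) [Field K] [CharZero K] (n : ℕ) (Z : Finset (Fin (n + 1) → K)),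
    (∀ p ∈ Z, p ≠ 0) →
    ∀ I : Ideal (MvPolynomial (Fin (n + 1)) K),
      I = Ideal.span {f : MvPolynomial (Fin (n + 1)) K |
            ∃ d : ℕ, f.IsHomogeneous d ∧ ∀ p ∈ Z, eval p f = 0} →
    ∀ J : (Fin (n + 1) → K) → Ideal (MvPolynomial (Fin (n + 1)) K),
      (∀ c : Fin (n + 1) → K,
        J c = I ⊔ Ideal.span {∑ i, C (c i) * (X i : MvPolynomial (Fin (n + 1)) K)}) →
      (∃ c : Fin (n + 1) → K,
        (∀ p ∈ Z, eval p (∑ i, C (c i) * (X i : MvPolynomial (Fin (n + 1)) K)) ≠ 0) ∧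
        ∃ s : MvPolynomial (Fin (n + 1)) K,
          s ∉ J c ∧ (∀ i, X i * s ∈ J c) ∧
          ∀ f : MvPolynomial (Fin (n + 1)) K,
            (∀ i, X i * f ∈ J c) → ∃ a : K, f - C a * s ∈ J c) →
      ∃ F : MvPolynomial (Fin (n + 1)) K, F ≠ 0 ∧
        ∀ c : Fin (n + 1) → K, eval c F ≠ 0 →
          ∃ L : MvPolynomial (Fin (n + 1)) K, L.IsHomogeneous 1 ∧
            ∀ d : ℕ,
              (∀ f : MvPolynomial (Fin (n + 1)) K,
                  f.IsHomogeneous d → L * f ∈ J c → f ∈ J c) ∨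
              (∀ g : MvPolynomial (Fin (n + 1)) K, g.IsHomogeneous (d + 1) →
                  ∃ f : MvPolynomial (Fin (n + 1)) K, f.IsHomogeneous d ∧ g - L * f ∈ J c)

/-- the body of the frozen statement S00286 -/
def Stmt286 : Prop :=
  ∀ (K : Type) [Field K] [CharZero K] [IsAlgClosed K] (n : ℕ)
    (X : Finset (Fin (n+1) → K)) (c : Fin (n+1) → K)
    (I J : Ideal (MvPolynomial (Fin (n+1)) K))
    (H M : ℕ → Submodule K (MvPolynomial (Fin (n+1)) K)) (h : ℕ → ℕ),
    X.Nonempty →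
    (∀ p ∈ X, p ≠ 0) →
    (∀ p ∈ X, ∑ j, c j * p j ≠ 0) →
    (∀ f : MvPolynomial (Fin (n+1)) K,
        f ∈ I ↔ ∀ p ∈ X, ∀ t : K, MvPolynomial.eval (t • p) f = 0) →
    J = I ⊔ Ideal.span
          ({∑ j, MvPolynomial.C (c j) * MvPolynomial.X j} :
            Set (MvPolynomial (Fin (n+1)) K)) →
    (∃ g : MvPolynomial (Fin (n+1)) K, g ∉ J ∧ (∀ j, MvPolynomial.X j * g ∈ J) ∧
        ∀ f : MvPolynomial (Fin (n+1)) K, (∀ j, MvPolynomial.X j * f ∈ J) →
          ∃ a : K, f - MvPolynomial.C a * g ∈ J) →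
    (∀ i (f : MvPolynomial (Fin (n+1)) K), f ∈ H i ↔ f.IsHomogeneous i) →
    (∀ i (f : MvPolynomial (Fin (n+1)) K), f ∈ M i ↔ (f.IsHomogeneous i ∧ f ∈ J)) →
    (∀ i, h i = Module.finrank K ↥(H i) - Module.finrank K ↥(M i)) →
    ∃ m : ℕ, (∀ i j, i ≤ j → j ≤ m → h i ≤ h j) ∧ (∀ i j, m ≤ i → i ≤ j → h j ≤ h i)

/-- Task T1: a set of points with Gorenstein duality (`t = 4`, socle degree `5`) such that for any
two linear forms `a`, `b` there is a function `φ` on the set, not a linear form, with `a φ`, `b φ`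
quadratic forms, refutes the statement S00247. -/
def T1 : Prop :=
  ∀ (K : Type) [Field K] [CharZero K] (n : ℕ) (Z : Type) [Fintype Z] (P : Z → Fin (n + 1) → K)
    (c : Z → K),
    Function.Injective P → (∀ z, P z ≠ 0) → Dual P c 4 →
    (∀ a b : Fin (n + 1) → K, ∃ φ : Z → K, φ ∉ S P 1 ∧
      (fun z => (∑ i, a i * P z i) * φ z) ∈ S P 2 ∧
      (fun z => (∑ i, b i * P z i) * φ z) ∈ S P 2) →
    ¬ Stmt248

/-- Task T2: the same with a non-unimodal h-vector (`t = 5`, socle degree `6`). -/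
def T2 : Prop :=
  ∀ (K : Type) [Field K] [CharZero K] [IsAlgClosed K] (n : ℕ) (Z : Type) [Fintype Z]
    (P : Z → Fin (n + 1) → K) (c : Z → K),
    Function.Injective P → (∀ z, P z ≠ 0) → Dual P c 5 →
    Module.finrank K (S P 1) = 39 → Module.finrank K (S P 2) = 130 →
    Module.finrank K (S P 3) = 220 → Module.finrank K (S P 4) = 311 →
    ¬ Stmt286

/-- Task T3 (core): the duality. -/
def T3 : Prop :=
  ∀ (K : Type) [Field K] (v k : ℕ) (I : Type) [Fintype I] [DecidableEq I]
    (C : Conf K v k I) (nd : Nodes K k), 2 ≤ v → 2 ≤ k → Nonempty I →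
    Dual (C.pts nd) (Conf.wt nd) (k + 1)

/-- Task T4: the configurations exist. -/
def T4a : Prop := ∀ (K : Type) [Field K] [CharZero K], Nonempty (Conf K 3 3 (Lat 2 3))

/-- Task T4: the configurations exist. -/
def T4b : Prop := ∀ (K : Type) [Field K] [CharZero K], Nonempty (Conf K 4 4 (Lat 3 4))

/-- Task T5: the dimension of the space of quadratic forms on the set -/
def T5 : Prop :=
  ∀ (K : Type) [Field K] (v k : ℕ) (I : Type) [Fintype I] [DecidableEq I]
    (C : Conf K v k I) (nd : Nodes K k), 2 ≤ v → 2 ≤ k → Nonempty I →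
    Module.finrank K (S (C.pts nd) 1) = v + Fintype.card I ∧
    Module.finrank K (S (C.pts nd) 2) + Module.finrank K (homogeneousSubmodule (Fin v) K (k - 1)) =
      4 * Fintype.card I + Module.finrank K (homogeneousSubmodule (Fin v) K 2)

section Lattice

variable {K : Type*} [Field K] {m k : ℕ}

/-- the translated lattice point `a + ρ`, with a homogenising coordinate `1` -/
noncomputable def latW (ρ : Fin m → K) (a : Lat m k) : Fin (m + 1) → K :=
  Fin.cons 1 (fun i => ((a.1 i : ℕ) : K) + ρ i)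

/-- the dual basis: at `(1, x)` its value is the product of the binomials `C(x_i - ρ_i, a_i)` and
`C(k - ∑ (x_i - ρ_i), k - |a|)` -/
noncomputable def latF (ρ : Fin m → K) (a : Lat m k) : MvPolynomial (Fin (m + 1)) K :=
  (∏ i : Fin m, ∏ j ∈ Finset.range (a.1 i : ℕ),
      (C (((j : K) + 1)⁻¹) * (X i.succ - C (ρ i + (j : K)) * X 0))) *
    ∏ j ∈ Finset.range (k - ∑ i, (a.1 i : ℕ)),
      (C (((j : K) + 1)⁻¹) * (C ((k : K) - (j : K) + ∑ i, ρ i) * X 0 - ∑ i : Fin m, X i.succ))

end Lattice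

/-- Task L1: lattice points of the simplex are unisolvent. -/
def L1 : Prop :=
  ∀ (K : Type) [Field K] [CharZero K] (m k : ℕ) (ρ : Fin m → K),
    (∀ a : Lat m k, (latF ρ a).IsHomogeneous k) ∧
    (∀ a b : Lat m k, eval (latW ρ a) (latF ρ b) = if a = b then 1 else 0) ∧
    ∀ p : MvPolynomial (Fin (m + 1)) K, p.IsHomogeneous k →
      (∀ a : Lat m k, eval (latW ρ a) p = 0) → p = 0

/-- Task L2: a form of degree `k + 1` which vanishes on the lattice and on its translate by `ρ` is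
invariant under the translation by `ρ`. -/
def L2 : Prop :=
  ∀ (K : Type) [Field K] [CharZero K] (m k : ℕ) (ρ : Fin m → K)
    (p : MvPolynomial (Fin (m + 1)) K), p.IsHomogeneous (k + 1) →
      (∀ a : Lat m k, eval (latW 0 a) p = 0) → (∀ a : Lat m k, eval (latW ρ a) p = 0) →
      ∀ (x : Fin m → K) (s : K),
        eval (Fin.cons 1 (x + s • ρ) : Fin (m + 1) → K) p = eval (Fin.cons 1 x : Fin (m + 1) → K) p

/-- Task L3: the condition `sq`. -/
def L3 : Prop :=
  ∀ (K : Type) [Field K] [CharZero K] (m k : ℕ) (ρ : Fin (m + 1) → K), 1 ≤ k → ρ 0 = -1 →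
    (∀ i : Fin m, ∀ z : ℤ, ρ i.succ ≠ z) → (∀ z : ℤ, ∑ i : Fin m, ρ i.succ ≠ z) →
    ∀ α β : Lat (m + 1) k → K,
    (∀ i j, α j * eval (latW ρ i) (latF 0 j) = β i * eval (latW (0 : Fin (m + 1) → K) j) (latF ρ i)) →
    (∀ j, α j = 0) ∧ ∀ i, β i = 0

/-- Task L4a. -/
def L4a : Prop :=
  ∀ (K : Type) [Field K] [CharZero K] (p : MvPolynomial (Fin 3) K), p.IsHomogeneous 4 →
    (∀ a : Lat 2 3, eval (latW 0 a) p = 0) →
    (∀ (x : Fin 2 → K) (s : K),
        eval (Fin.cons 1 (x + s • ![-1, 1 / 2]) : Fin 3 → K) p =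
          eval (Fin.cons 1 x : Fin 3 → K) p) → p = 0

/-- Task L4b. -/
def L4b : Prop :=
  ∀ (K : Type) [Field K] [CharZero K] (p : MvPolynomial (Fin 4) K), p.IsHomogeneous 5 →
    (∀ a : Lat 3 4, eval (latW 0 a) p = 0) →
    (∀ (x : Fin 3 → K) (s : K),
        eval (Fin.cons 1 (x + s • ![-1, 19 / 4, 1 / 2]) : Fin 4 → K) p =
          eval (Fin.cons 1 x : Fin 4 → K) p) → p = 0

end Pool.Agent.W464.WLP
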