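import Pool.Agent.W464.WLP.Defs

/-!
# Gorenstein sets of points without the weak Lefschetz property: further task statements
-/

set_option autoImplicit false

open MvPolynomial

namespace Pool.Agent.W464.WLP

/-- Task TN: a function on the nodes orthogonal to `τ^2, …, τ^(k+1-d)` is a polynomial of degree
at most `d` in `τ`. -/
def TN : Prop :=
  ∀ (K : Type) [Field K] (k : ℕ) (nd : Nodes K k) (d : ℕ), d ≤ k → ∀ ψ : Fin (k + 1) → K,
    (∀ j, 2 ≤ j → j ≤ k + 1 - d → ∑ r, nd.γ r * ψ r * nd.τ r ^ j = 0) →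
    ∃ a : ℕ → K, ∀ r, ψ r = ∑ j ∈ Finset.range (d + 1), a j * nd.τ r ^ j

/-- Task TQ. -/
def TQ : Prop :=
  ∀ (K : Type) [Field K] (v k : ℕ) (I : Type) [Fintype I] [DecidableEq I] (C : Conf K v k I),
    2 ≤ v → 1 ≤ k → ∀ m ≤ k, ∀ α : Bool → I → K,
    (∀ p : MvPolynomial (Fin v) K, p.IsHomogeneous m → ∀ l : I,
      ∑ i, α false i * eval (C.w false i) p * C.e false i l =
        ∑ i, α true i * eval (C.w true i) p * C.e true i l) →
    ∃ q : MvPolynomial (Fin v) K, q.IsHomogeneous (k - m) ∧ ∀ b i, α b i = eval (C.w b i) q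

/-- Task TM: quadratic forms in the second half of the coordinates separate the points `e b i`. -/
def TM : Prop :=
  ∀ (K : Type) [Field K] (v k : ℕ) (I : Type) [Fintype I] [DecidableEq I] (C : Conf K v k I)
    (b₀ : Bool) (i₀ : I), ∃ g : MvPolynomial I K, g.IsHomogeneous 2 ∧
      ∀ b i, eval (C.e b i) g = if b = b₀ ∧ i = i₀ then 1 else 0

/-- Task TG: orthogonality. -/
def TG : Prop :=
  ∀ (K : Type) [Field K] (v k : ℕ) (I : Type) [Fintype I] [DecidableEq I] (C : Conf K v k I)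
    (nd : Nodes K k) (g : MvPolynomial (Fin v ⊕ I) K), g.IsHomogeneous (k + 1) →
    ∑ z, Conf.wt nd z * eval (C.pts nd z) g = 0

/-- Task TW: restriction to the first half of the coordinates. -/
def TW : Prop :=
  ∀ (K : Type) [Field K] (v k : ℕ) (I : Type) [Fintype I] [DecidableEq I] (C : Conf K v k I)
    (nd : Nodes K k) (x : Fin v → K) (g : MvPolynomial (Fin v ⊕ I) K), g.IsHomogeneous k →
    ∑ i, ∑ r, nd.γ r * nd.τ r * eval x (C.f false i) * eval (C.pts nd (false, i, r)) g =
      eval (Sum.elim x 0 : Fin v ⊕ I → K) g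

end Pool.Agent.W464.WLP
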